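import Pool.Agent.Work.MP_dcf6a6_tv.Interface

/-!
# Block DEG: top and bottom coefficients
-/

set_option autoImplicit false

namespace Pool.TVar.helper54

open Polynomial

lemma deg_prod {K R : Type} [CommRing R] (s : Finset K) (f : K → Polynomial R) (d : K → ℕ)
    (h : ∀ k ∈ s, (f k).natDegree ≤ d k) :
    (∏ k ∈ s, f k).natDegree ≤ ∑ k ∈ s, d k ∧
      (∏ k ∈ s, f k).coeff (∑ k ∈ s, d k) = ∏ k ∈ s, (f k).coeff (d k) := by
  classical
  induction s using Finset.induction_on with
  | empty => simp
  | insert a s ha ih =>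
    have h1 := ih (fun k hk => h k (Finset.mem_insert_of_mem hk))
    have h2 := h a (Finset.mem_insert_self a s)
    rw [Finset.prod_insert ha, Finset.sum_insert ha, Finset.prod_insert ha]
    refine ⟨?_, ?_⟩
    · exact Polynomial.natDegree_mul_le.trans (Nat.add_le_add h2 h1.1)
    · rw [Polynomial.coeff_mul_add_eq_of_natDegree_le h2 h1.1, h1.2]

theorem stmt_DEG : Stmt_DEG := by
  intro K R _ _ _ u P δ N z hP hz
  have hterm : ∀ n ∈ P.support,
      (algebraMap ℂ (Polynomial R) (P.coeff n) * ∏ k, z k ^ n k).natDegree ≤ N * δ ∧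
      (algebraMap ℂ (Polynomial R) (P.coeff n) * ∏ k, z k ^ n k).coeff (N * δ) =
        algebraMap ℂ R (P.coeff n) * ∏ k, (z k).coeff (N * u k) ^ n k := by
    intro n hn
    have hw : ∑ k, n k * (N * u k) = N * δ := by
      have h1 : Finsupp.weight u n = δ := hP (MvPolynomial.mem_support_iff.1 hn)
      rw [Finsupp.weight_apply, Finsupp.sum_fintype _ _ (fun i => by simp)] at h1
      rw [← h1, Finset.mul_sum]
      refine Finset.sum_congr rfl fun k _ => ?_
      rw [smul_eq_mul]
      ring
    have h2 := deg_prod Finset.univ (fun k => z k ^ n k) (fun k => n k * (N * u k))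
      (fun k _ => Polynomial.natDegree_pow_le_of_le (n k) (hz k))
    rw [hw] at h2
    have h3 : algebraMap ℂ (Polynomial R) (P.coeff n) = Polynomial.C (algebraMap ℂ R (P.coeff n)) :=
      rfl
    rw [h3]
    refine ⟨(Polynomial.natDegree_C_mul_le _ _).trans h2.1, ?_⟩
    rw [Polynomial.coeff_C_mul, h2.2]
    congr 1
    refine Finset.prod_congr rfl fun k _ => ?_
    exact Polynomial.coeff_pow_of_natDegree_le (hz k)
  refine ⟨?_, ?_, ?_⟩
  · rw [MvPolynomial.aeval_def, MvPolynomial.eval₂_eq']
    exact Polynomial.natDegree_sum_le_of_forall_le _ _ (fun n hn => (hterm n hn).1)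
  · rw [MvPolynomial.aeval_def, MvPolynomial.eval₂_eq', Polynomial.finsetSum_coeff,
      MvPolynomial.aeval_def, MvPolynomial.eval₂_eq']
    exact Finset.sum_congr rfl (fun n hn => (hterm n hn).2)
  · rw [MvPolynomial.aeval_def, MvPolynomial.eval₂_eq', Polynomial.finsetSum_coeff,
      MvPolynomial.aeval_def, MvPolynomial.eval₂_eq']
    refine Finset.sum_congr rfl fun n _ => ?_
    have h3 : algebraMap ℂ (Polynomial R) (P.coeff n) = Polynomial.C (algebraMap ℂ R (P.coeff n)) :=
      rfl
    rw [h3, Polynomial.coeff_C_mul]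
    congr 1
    rw [← Polynomial.constantCoeff_apply, map_prod]
    refine Finset.prod_congr rfl fun k _ => ?_
    rw [map_pow]
    rfl

end Pool.TVar.helper54
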