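import Pool.Agent.Work.MP_dcf6a6_tv.Interface

/-!
# Block HERM: interpolation with nonvanishing derivatives
-/

set_option autoImplicit false

namespace Pool.TVar.helper54

open Polynomial

theorem stmt_HERM : Stmt_HERM := by
  classical
  intro L _ ρ v hρ hρ0
  set W : Polynomial ℂ := Lagrange.nodal Finset.univ ρ with hW
  have hWi : ∀ i, W.eval (ρ i) = 0 := fun i => by
    rw [hW]
    exact Lagrange.eval_nodal_at_node (Finset.mem_univ i)
  have hWd : ∀ i, (derivative W).eval (ρ i) ≠ 0 := by
    intro i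
    rw [hW, Lagrange.eval_nodal_derivative_eval_node_eq (Finset.mem_univ i), Lagrange.eval_nodal,
      Finset.prod_ne_zero_iff]
    intro j hj
    exact sub_ne_zero.2 fun h => (Finset.ne_of_mem_erase hj) (hρ h).symm
  set Λ : Polynomial ℂ := Lagrange.interpolate Finset.univ ρ (fun i => v i / ρ i) with hΛ
  have hΛi : ∀ i, Λ.eval (ρ i) = v i / ρ i := fun i =>
    Lagrange.eval_interpolate_at_node _ (hρ.injOn) (Finset.mem_univ i)
  obtain ⟨c, hc⟩ := Infinite.exists_notMem_finset
    (Finset.univ.image fun i : L =>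
      -(derivative (X * Λ)).eval (ρ i) / (ρ i * (derivative W).eval (ρ i)))
  set r : Polynomial ℂ := X * Λ + C c * (X * W) with hr
  set m : ℕ := r.natDegree + 1 with hm
  have hWm : W.Monic := Lagrange.nodal_monic
  have hmon : (X ^ m * W ^ 2).Monic := (monic_X_pow m).mul (hWm.pow 2)
  have hdeg : m ≤ (X ^ m * W ^ 2).natDegree := by
    rw [(monic_X_pow m).natDegree_mul (hWm.pow 2), natDegree_X_pow]
    exact Nat.le_add_right _ _
  have hlt : r.degree < (X ^ m * W ^ 2).degree := by
    refine lt_of_le_of_lt degree_le_natDegree ?_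
    rw [degree_eq_natDegree hmon.ne_zero]
    exact_mod_cast lt_of_lt_of_le (Nat.lt_succ_self _) hdeg
  refine ⟨X ^ m * W ^ 2 + r, hmon.add_of_left hlt, ?_, ?_, ?_, ?_⟩
  · rw [natDegree_add_eq_left_of_degree_lt hlt]
    exact lt_of_lt_of_le (Nat.succ_pos _) hdeg
  · simp [hr, hm]
  · intro i
    rw [eval_add, eval_mul, eval_pow, eval_pow, eval_X, hWi, hr, eval_add, eval_mul, eval_mul,
      eval_mul, eval_X, eval_C, hWi, hΛi, mul_div_cancel₀ _ (hρ0 i)]
    ring
  · intro i
    have h1 : (derivative (X ^ m * W ^ 2)).eval (ρ i) = 0 := by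
      rw [derivative_mul, derivative_pow W 2, eval_add, eval_mul, eval_mul, eval_pow, hWi]
      simp [hWi]
    have h2 : (derivative (X * W)).eval (ρ i) = ρ i * (derivative W).eval (ρ i) := by
      rw [derivative_mul, eval_add, eval_mul, eval_mul, hWi, eval_X]
      ring
    have h3 : (derivative (X ^ m * W ^ 2 + r)).eval (ρ i) =
        (derivative (X * Λ)).eval (ρ i) + c * (ρ i * (derivative W).eval (ρ i)) := by
      rw [derivative_add, eval_add, h1, hr, derivative_add, eval_add, derivative_C_mul, eval_mul,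
        eval_C, h2, zero_add]
    rw [h3]
    intro h4
    apply hc
    rw [Finset.mem_image]
    refine ⟨i, Finset.mem_univ i, ?_⟩
    have h5 : ρ i * (derivative W).eval (ρ i) ≠ 0 := mul_ne_zero (hρ0 i) (hWd i)
    rw [div_eq_iff h5]
    linear_combination -h4

end Pool.TVar.helper54
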