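import Pool.Agent.Work.MP_dcf6a6_tv.Interface

/-!
# Block QJ: distribution of the roots over the variables of a block
-/

set_option autoImplicit false

namespace Pool.TVar.helper54

open Polynomial

/-- a finite set can be cut into pieces of prescribed sizes -/
lemma qj_cut {J α : Type} [DecidableEq J] [DecidableEq α] (T : Finset J) (n : J → ℕ)
    (S : Finset α) (h : ∑ j ∈ T, n j = S.card) :
    ∃ A : J → Finset α, (∀ j ∈ T, (A j).card = n j) ∧
      (∀ i ∈ T, ∀ j ∈ T, i ≠ j → Disjoint (A i) (A j)) ∧ T.biUnion A = S := by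
  induction T using Finset.induction_on generalizing S with
  | empty =>
    rw [Finset.sum_empty] at h
    refine ⟨fun _ => ∅, by simp, by simp, ?_⟩
    rw [Finset.biUnion_empty]
    exact (Finset.card_eq_zero.1 h.symm).symm
  | insert a T ha ih =>
    rw [Finset.sum_insert ha] at h
    obtain ⟨Sa, hSa, hca⟩ := Finset.exists_subset_card_eq (s := S) (n := n a) (by omega)
    obtain ⟨A, h1, h2, h3⟩ := ih (S \ Sa) (by rw [Finset.card_sdiff_of_subset hSa]; omega)
    have hT : ∀ j ∈ T, j ≠ a := fun j hj h => ha (h ▸ hj)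
    have hsub : ∀ j ∈ T, A j ⊆ S \ Sa := fun j hj => by
      rw [← h3]
      exact Finset.subset_biUnion_of_mem A hj
    have hd : ∀ j ∈ T, Disjoint Sa (A j) := fun j hj =>
      Finset.disjoint_of_subset_right (hsub j hj) Finset.disjoint_sdiff
    refine ⟨Function.update A a Sa, ?_, ?_, ?_⟩
    · intro j hj
      rcases Finset.mem_insert.1 hj with rfl | hj
      · rw [Function.update_self]; exact hca
      · rw [Function.update_of_ne (hT j hj)]; exact h1 j hj
    · intro i hi j hj hij
      rcases Finset.mem_insert.1 hi with hia | hi'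
      · rcases Finset.mem_insert.1 hj with hja | hj'
        · exact absurd (hia.trans hja.symm) hij
        · rw [hia, Function.update_self, Function.update_of_ne (hT j hj')]
          exact hd j hj'
      · rcases Finset.mem_insert.1 hj with hja | hj'
        · rw [hja, Function.update_self, Function.update_of_ne (hT i hi')]
          exact (hd i hi').symm
        · rw [Function.update_of_ne (hT i hi'), Function.update_of_ne (hT j hj')]
          exact h2 i hi' j hj' hij
    · rw [Finset.biUnion_insert, Function.update_self]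
      have : T.biUnion (Function.update A a Sa) = T.biUnion A :=
        Finset.biUnion_congr rfl fun j hj => by rw [Function.update_of_ne (hT j hj)]
      rw [this, h3, Finset.union_sdiff_of_subset hSa]

theorem stmt_QJ : Stmt_QJ := by
  classical
  intro J I B _ _ _ _ ja ba w m p N R hw hm hp hbal hN hdvd hne hdis hcard
  -- the sizes
  have hδ : ∀ j, 0 < ∑ i with ja i = ja j, w i := fun j =>
    lt_of_lt_of_le (hw j) (Finset.single_le_sum (f := w) (fun i _ => Nat.zero_le _)
      (Finset.mem_filter.2 ⟨Finset.mem_univ j, rfl⟩))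
  set c : J → ℕ := fun j => N / ∑ i with ja i = ja j, w i with hc
  have hcN : ∀ j, c j * ∑ i with ja i = ja j, w i = N := fun j => Nat.div_mul_cancel (hdvd j)
  have hcj : ∀ i j, ja i = ja j → c i = c j := fun i j h => by
    rw [hc]
    simp only [h]
  have hcpos : ∀ j, 0 < c j := fun j => by
    rcases Nat.eq_zero_or_pos (c j) with h | h
    · have := hcN j
      rw [h, zero_mul] at this
      omega
    · exact h
  have hsum : ∀ b, ∑ j with ja j = ba b, c j * p b * w j = (R b).card := by
    intro b
    obtain ⟨j0, hj0⟩ := hne b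
    rw [hcard b, ← hcN j0, hj0]
    have h1 : ∑ j with ja j = ba b, c j * p b * w j = ∑ j with ja j = ba b, c j0 * p b * w j := by
      refine Finset.sum_congr rfl fun j hj => ?_
      rw [hcj j j0 ((Finset.mem_filter.1 hj).2.trans hj0.symm)]
    rw [h1, ← Finset.mul_sum]
    ring
  choose A hA1 hA2 hA3 using fun b => qj_cut (Finset.univ.filter fun j => ja j = ba b)
    (fun j => c j * p b * w j) (R b) (hsum b)
  have hAsub : ∀ b j, ja j = ba b → A b j ⊆ R b := fun b j hj => by
    rw [← hA3 b]
    exact Finset.subset_biUnion_of_mem (A b) (Finset.mem_filter.2 ⟨Finset.mem_univ j, hj⟩)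
  have hAcard : ∀ b j, ja j = ba b → (A b j).card = c j * p b * w j := fun b j hj =>
    hA1 b j (Finset.mem_filter.2 ⟨Finset.mem_univ j, hj⟩)
  -- the block has some `b`
  have hbex : ∀ j, ∃ b, ba b = ja j := by
    intro j
    by_contra hcon
    push Not at hcon
    have h1 := hbal (ja j)
    rw [Finset.filter_false_of_mem (s := (Finset.univ : Finset B)) (fun b _ => hcon b),
      Finset.sum_empty] at h1
    have h2 := hδ j
    omega
  set bz : I → Option B := fun a => if h : ∃ b, ba b = a then some h.choose else none with hbz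
  have hbz1 : ∀ j, ∃ b, bz (ja j) = some b ∧ ba b = ja j := fun j => by
    refine ⟨(hbex j).choose, ?_, (hbex j).choose_spec⟩
    rw [hbz]
    simp only [dif_pos (hbex j)]
  set μ : I → ℕ := fun a => (bz a).elim 1 m with hμ
  -- the products
  set Z : J → Finset ((_ : B) × ℂ) := fun j =>
    (Finset.univ.filter fun b => ba b = ja j).sigma (fun b => A b j) with hZ
  have hZm : ∀ j x, x ∈ Z j ↔ ba x.1 = ja j ∧ x.2 ∈ A x.1 j := fun j x => by
    rw [hZ]
    simp only [Finset.mem_sigma, Finset.mem_filter, Finset.mem_univ, true_and]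
  have hinj : ∀ i j x y, x ∈ Z i → y ∈ Z j → x.2 = y.2 → x = y ∧ i = j := by
    intro i j x y hx hy hxy
    rw [hZm] at hx hy
    have h1 : x.1 = y.1 := by
      by_contra h
      exact Finset.disjoint_left.1 (hdis _ _ h) (hAsub _ _ hx.1.symm hx.2)
        (hxy ▸ hAsub _ _ hy.1.symm hy.2)
    obtain ⟨x1, x2⟩ := x
    obtain ⟨y1, y2⟩ := y
    simp only at h1 hxy hx hy
    subst h1
    subst hxy
    refine ⟨rfl, ?_⟩
    by_contra hij
    exact Finset.disjoint_left.1 (hA2 x1 i (Finset.mem_filter.2 ⟨Finset.mem_univ _, hx.1.symm⟩)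
      j (Finset.mem_filter.2 ⟨Finset.mem_univ _, hy.1.symm⟩) hij) hx.2 hy.2
  set Q : J → Polynomial ℂ := fun j => ∏ x ∈ Z j, (X - C x.2) ^ m x.1 with hQ
  -- the special root
  have hs : ∀ j, ∃ x, x ∈ Z j ∧ m x.1 = μ (ja j) := by
    intro j
    obtain ⟨b, hb1, hb2⟩ := hbz1 j
    have h1 : (A b j).Nonempty := by
      rw [← Finset.card_pos, hAcard b j hb2.symm]
      exact Nat.mul_pos (Nat.mul_pos (hcpos j) (hp b)) (hw j)
    obtain ⟨α, hα⟩ := h1
    refine ⟨⟨b, α⟩, (hZm _ _).2 ⟨hb2, hα⟩, ?_⟩
    rw [hμ]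
    simp only [hb1, Option.elim_some]
  choose x0 hx0 hx0m using hs
  refine ⟨Q, fun j => ∏ x ∈ (Z j).erase (x0 j), (X - C x.2) ^ m x.1, fun j => (x0 j).2, μ,
    ?_, ?_, ?_, ?_, ?_⟩
  · intro a
    rw [hμ]
    simp only
    cases bz a with
    | none => exact Nat.one_pos
    | some b => exact hm b
  · intro j
    refine ⟨?_, ?_, ?_, ?_⟩
    · exact monic_prod_of_monic _ _ fun x _ => (monic_X_sub_C _).pow _
    · rw [hQ]
      simp only
      rw [natDegree_prod_of_monic _ _ fun x _ => (monic_X_sub_C _).pow _]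
      have h1 : ∀ x ∈ Z j, ((X - C x.2) ^ m x.1 : Polynomial ℂ).natDegree = m x.1 := fun x _ => by
        rw [natDegree_pow, natDegree_X_sub_C, mul_one]
      rw [Finset.sum_congr rfl h1, hZ]
      simp only
      rw [Finset.sum_sigma]
      have h2 : ∀ b ∈ Finset.univ.filter (fun b => ba b = ja j), (∑ _x ∈ A b j, m b) =
          c j * w j * (m b * p b) := by
        intro b hb
        rw [Finset.sum_const, hAcard b j (Finset.mem_filter.1 hb).2.symm, smul_eq_mul]
        ring
      rw [Finset.sum_congr rfl h2, ← Finset.mul_sum, ← hbal (ja j)]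
      calc c j * w j * ∑ i with ja i = ja j, w i = (c j * ∑ i with ja i = ja j, w i) * w j := by
            ring
        _ = N * w j := by rw [hcN j]
    · rw [← hx0m j]
      exact (Finset.mul_prod_erase (Z j) (fun x => (X - C x.2 : Polynomial ℂ) ^ m x.1)
        (hx0 j)).symm
    · rw [eval_prod, Finset.prod_ne_zero_iff]
      intro x hx
      rw [eval_pow, eval_sub, eval_X, eval_C]
      refine pow_ne_zero _ (sub_ne_zero.2 fun h => ?_)
      exact (Finset.ne_of_mem_erase hx) (hinj j j x (x0 j) (Finset.mem_of_mem_erase hx) (hx0 j)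
        h.symm).1
  · intro j t ht
    rw [IsRoot.def, hQ] at ht
    simp only [eval_prod] at ht
    obtain ⟨x, hx, hxt⟩ := Finset.prod_eq_zero_iff.1 ht
    rw [eval_pow, eval_sub, eval_X, eval_C] at hxt
    have h1 : t = x.2 := sub_eq_zero.1 ((pow_eq_zero_iff (hm x.1).ne').1 hxt)
    have h2 := (hZm j x).1 hx
    exact ⟨x.1, h2.1, h1 ▸ hAsub _ _ h2.1.symm h2.2⟩
  · intro i j hij
    refine IsCoprime.prod_left fun x hx => IsCoprime.prod_right fun y hy => ?_
    refine IsCoprime.pow ?_
    refine isCoprime_X_sub_C_of_isUnit_sub ?_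
    refine isUnit_iff_ne_zero.2 (sub_ne_zero.2 fun h => hij (hinj i j x y hx hy h).2)
  · intro a
    rw [hQ]
    simp only
    have h1 : ∀ j ∈ Finset.univ.filter (fun j => ja j = a),
        (∏ x ∈ Z j, (X - C x.2 : Polynomial ℂ) ^ m x.1) =
          ∏ b with ba b = a, ∏ α ∈ A b j, (X - C α) ^ m b := by
      intro j hj
      rw [hZ]
      simp only
      rw [Finset.prod_sigma, (Finset.mem_filter.1 hj).2]
    rw [Finset.prod_congr rfl h1, Finset.prod_comm]
    refine Finset.prod_congr rfl fun b hb => ?_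
    have hba : ba b = a := (Finset.mem_filter.1 hb).2
    rw [← Finset.prod_pow, ← hA3 b, hba, Finset.prod_biUnion]
    intro i hi j hj hij
    have hi' := (Finset.mem_filter.1 (Finset.mem_coe.1 hi)).2
    have hj' := (Finset.mem_filter.1 (Finset.mem_coe.1 hj)).2
    exact hA2 b i (Finset.mem_filter.2 ⟨Finset.mem_univ _, hi'.trans hba.symm⟩)
      j (Finset.mem_filter.2 ⟨Finset.mem_univ _, hj'.trans hba.symm⟩) hij

end Pool.TVar.helper54
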